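import Pool.Agent.H64.XS.Stm
import Pool.Graph.R_seed8.Y839.RO.POM
import Pool.Graph.R_seed8.Y108.RO.CTG

/-!
# Project XS: the range of the isometry reduces the normal operator (`S_RD2`)
-/

set_option autoImplicit false
set_option linter.unusedSectionVars false
set_option linter.unusedVariables false

namespace Pool.Agent.H22.XS

open MeasureTheory Set Metric Filter Topology
open scoped InnerProductSpace ENNReal NNReal ComplexConjugate ContDiff
open Pool.Agent.Y283.NK (ct IsMul Repr)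
open Pool.Agent.Y271.RO (ht Bd db)
open Pool.Agent.Q130.TR
open Pool.Agent.H50.SM
open Pool.Agent.H64.XS
open ContinuousLinearMap (adjoint)

/-- a smooth function with compact support equal to the conjugation on a disc -/
theorem exists_chi (M : ℝ) : ∃ χ : ℂ → ℂ, ContDiff ℝ 1 χ ∧ HasCompactSupport χ ∧
    ∀ w, ‖w‖ ≤ M → χ w = conj w := by
  let f : ContDiffBump (0 : ℂ) := ⟨|M| + 1, |M| + 2, by positivity, by linarith⟩
  refine ⟨fun w => (f w : ℂ) * conj w, ?_, ?_, fun w hw => ?_⟩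
  · exact (Complex.ofRealCLM.contDiff.comp f.contDiff).mul Complex.conjCLE.contDiff
  · have h1 : HasCompactSupport fun w : ℂ => ((f w : ℝ) : ℂ) :=
      f.hasCompactSupport.comp_left Complex.ofReal_zero
    exact h1.mul_right
  · have h1 : f w = 1 := f.one_of_mem_closedBall (by
      rw [mem_closedBall_zero_iff]
      have := le_abs_self M
      change ‖w‖ ≤ |M| + 1
      linarith)
    simp only [h1, Complex.ofReal_one, one_mul]

theorem bd_db {χ : ℂ → ℂ} (h : ContDiff ℝ 1 χ) (hc : HasCompactSupport χ) :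
    ∃ r M : ℝ, Bd (db χ) 0 r M := by
  have h1 : Continuous (db χ) := Pool.Agent.Y839.RO.db_cont h
  have h2 : ∀ z, z ∉ tsupport χ → db χ z = 0 := fun z hz => Pool.Agent.Y839.RO.db_supp hz
  have h3 : HasCompactSupport (db χ) := HasCompactSupport.intro hc h2
  obtain ⟨M, hM⟩ := h3.exists_bound_of_continuous h1
  obtain ⟨r, hr⟩ := hc.isBounded.subset_ball (0 : ℂ)
  exact ⟨r, M, h1.measurable, (norm_nonneg _).trans (hM 0), hM, fun z hz => h2 z fun h4 => hz (hr h4)⟩

theorem sq_single (i : ℕ) : Sq (Pi.single i 1) := by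
  unfold Sq
  refine summable_of_ne_finset_zero (s := {i}) fun j hj => ?_
  rw [Finset.mem_singleton] at hj
  rw [Pi.single_eq_of_ne hj, norm_zero]
  norm_num

theorem tsum_single (b : ℕ → ℂ) (i : ℕ) :
    ∑' j, b j * (Pi.single i 1 : ℕ → ℂ) j = b i := by
  rw [tsum_eq_single i, Pi.single_eq_same, mul_one]
  intro j hj
  rw [Pi.single_eq_of_ne hj, mul_zero]

/-- **Module RD2** -/
theorem rd2 (hRD1 : S_RD1) (hHSB : S_HSB) : S_RD2 := by
  intro S _ μ _ φ N K u v J H _ _ _ V B hD hc x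
  have hu : Summable fun j => ‖u j‖ ^ 2 := hD.rep.1
  have hv : Summable fun j => ‖v j‖ ^ 2 := hD.rep.2.1
  have h1 : ∀ᵐ z : ℂ, ∀ c, Sq c → (∀ i ∈ J, c i = act (Fm φ u v z) c i) → ∀ k ∈ J, c k = 0 := by
    have h2 : ∀ᵐ z : ℂ, ∀ k : ℕ, ∀ c, Sq c → (∀ i ∈ J, c i = act (Fm φ u v z) c i) →
        ∑' j, ct φ (V (adjoint V (v k))) (u j) z * c j = 0 := ae_all_iff.2 fun k => hc _
    filter_upwards [h2] with z hz c hc1 hc2 k hk
    have h3 := hz k c hc1 hc2
    rw [hD.vJ k hk] at h3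
    rw [hc2 k hk]
    exact h3
  have h2 : ∀ᵐ z : ℂ, ∀ k ∈ J, ∀ i, i ∉ J → Fm φ u v z k i = 0 := by
    filter_upwards [h1, (hHSB.1 S μ φ hD.mul.meas u v hu hv).2.1] with z hz hF k hk i hi
    exact hRD1 _ J hF hz k hk i hi
  have h3 : ∀ i, i ∉ J → ∀ᵐ z : ℂ, ct φ (V x) (u i) z = 0 := by
    intro i hi
    filter_upwards [h2, hc x] with z hz hx
    have h4 := hx (Pi.single i 1) (sq_single i) fun k hk => by
      have hki : k ≠ i := fun h => hi (h ▸ hk)
      unfold act
      rw [tsum_single, hz k hk i hi, Pi.single_eq_of_ne hki]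
    rwa [tsum_single] at h4
  refine hD.tot _ fun i hi => ?_
  obtain ⟨M, hM⟩ := hD.mul.bdd
  obtain ⟨χ, k1, k2, k3⟩ := exists_chi M
  obtain ⟨r, M', hB⟩ := bd_db k1 k2
  obtain ⟨-, -, h4⟩ := Pool.Agent.Y108.RO.main S μ φ hD.mul.meas (V x) (u i)
  obtain ⟨-, h5⟩ := h4 0 r M' (db χ) hB
  have h6 : ∫ z, db χ z * ct φ (V x) (u i) z = 0 := by
    rw [integral_eq_zero_of_ae]
    filter_upwards [h3 i hi] with z hz
    rw [hz, mul_zero, Pi.zero_apply]
  rw [h6] at h5
  have h7 : ∀ s, ht (db χ) (φ s) = -(Real.pi * conj (φ s)) := by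
    intro s
    rw [Pool.Agent.Y839.RO.main.1 χ k1 k2, k3 _ (hM s)]
  simp only [h7] at h5
  have h8 : ∫ s, conj (conj (V x s) * (-(Real.pi * conj (φ s)) * u i s)) ∂μ = 0 := by
    rw [integral_conj, h5, map_zero]
  rw [L2.inner_def]
  have h9 : ∫ s, ⟪u i s, N (V x) s⟫_ℂ ∂μ =
      ∫ s, (-(Real.pi : ℂ)⁻¹) * conj (conj (V x s) * (-(Real.pi * conj (φ s)) * u i s)) ∂μ := by
    refine integral_congr_ae ?_
    filter_upwards [hD.mul.eq (V x)] with s hs
    rw [hs, RCLike.inner_apply]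
    simp only [map_mul, map_neg, Complex.conj_conj, Complex.conj_ofReal]
    have : (Real.pi : ℂ) ≠ 0 := by exact_mod_cast Real.pi_ne_zero
    field_simp
  rw [h9, integral_const_mul, h8, mul_zero]

end Pool.Agent.H22.XS
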